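import Pool.Agent.H26.WGA3

set_option autoImplicit false

open Filter Topology MeasureTheory
open scoped RealInnerProductSpace

namespace Pool.Agent.Results.MP_d1960f_an.Criterion

noncomputable abbrev H := Lp ℝ 2 (volume : Measure (unitInterval × unitInterval))

def Pi2 : Set H := {g | ‖g‖ = 1 ∧ ∃ u v : Lp ℝ 2 (volume : Measure unitInterval),
  g =ᵐ[volume] fun p => u p.1 * v p.2}

def Converges {E : Type} [NormedAddCommGroup E] [InnerProductSpace ℝ E] (D : Set E) (t : ℕ → ℝ) :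
    Prop := ∀ f φ : ℕ → E,
  (∀ m, φ (m + 1) ∈ D ∧
    t (m + 1) * sSup ((fun g => |⟪f m, g⟫|) '' D) ≤ |⟪f m, φ (m + 1)⟫| ∧
    f (m + 1) = f m - ⟪f m, φ (m + 1)⟫ • φ (m + 1)) →
  Tendsto (fun m => ‖f m‖) atTop (𝓝 0)

def InV (x : ℕ → ℝ) : Prop := ∃ q : ℕ → ℕ, q 0 = 0 ∧ StrictMono q ∧
  Summable (fun s => (2 : ℝ) ^ (s + 1) / ((q (s + 1) : ℝ) - q s)) ∧
  Summable fun s => ((2 : ℝ) ^ (s + 1))⁻¹ * ∑ k ∈ Finset.Icc 1 (q (s + 1)), x k ^ 2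

theorem result (t : ℕ → ℝ) (ht : ∀ k, 1 ≤ k → 0 ≤ t k ∧ t k ≤ 1) :
    Converges Pi2 t ↔ ¬ InV t := by
  have hn : ∀ u v, ‖H26.WGA.tens u v‖ = ‖u‖ * ‖v‖ := fun u v => by
    have := H26.WGA.tens_inner u v u v
    simp only [real_inner_self_eq_norm_sq, ← mul_pow] at this
    exact (pow_left_inj₀ (norm_nonneg _) (by positivity) two_ne_zero).1 this
  have e : Pi2 = {g | ∃ u v, ‖u‖ = 1 ∧ ‖v‖ = 1 ∧ g = H26.WGA.tens u v} := by
    refine Set.ext fun g => ⟨?_, ?_⟩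
    · rintro ⟨h1, u, v, h⟩
      obtain rfl : g = H26.WGA.tens u v := Lp.ext (h.trans (H26.WGA.tens_ae u v).symm)
      rw [hn] at h1
      have hu : u ≠ 0 := by rintro rfl; simp at h1
      have hv : v ≠ 0 := by rintro rfl; simp at h1
      refine ⟨‖u‖⁻¹ • u, ‖v‖⁻¹ • v, norm_smul_inv_norm (𝕜 := ℝ) hu, norm_smul_inv_norm (𝕜 := ℝ) hv, ?_⟩
      have := H26.WGA.bil H26.WGA.tens_inner ‖u‖⁻¹ 0 ‖v‖⁻¹ 0 u 0 v 0
      simpa [← mul_inv, h1] using this.symm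
    · rintro ⟨u, v, hu, hv, rfl⟩
      exact ⟨by rw [hn, hu, hv, mul_one], u, v, H26.WGA.tens_ae u v⟩
  have e2 : InV t ↔ H26.WGA.V fun k => t (k + 1) := by
    simp only [InV, H26.WGA.V, Finset.range_eq_Ico, Finset.sum_Ico_add' (fun k => t k ^ 2),
      zero_add, Finset.Ico_add_one_right_eq_Icc]
  rw [e2, ← H26.WGA.main fun k => ht (k + 1) k.succ_pos, ← e]
  exact ⟨fun h f φ hf => tendsto_zero_iff_norm_tendsto_zero.2 (h f (fun m => φ (m - 1)) hf),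
    fun h f φ hf => tendsto_zero_iff_norm_tendsto_zero.1 (h f (fun m => φ (m + 1)) hf)⟩

end Pool.Agent.Results.MP_d1960f_an.Criterion
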